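import Pool.Agent.Y718.GY

/-!
# The semialgebraic form of Mazur's conjecture for double covers with parallel genus one curves

`f` is any polynomial over `ℚ` in `n` variables. We consider the affine variety
`w² = f(z₁, …, z_n)`. A vector `v ∈ ℚⁿ` is a direction of degree at most `d` if `f` has degree at
most `d` on all lines of direction `v`. The double cover of a line whose direction has degree at
most `4` is a curve `s² = q(t)`, `deg q ≤ 4`, of genus at most one; on it lie the two rational points
`(0, w), (0, -w)` over `t = 0`, if `q(0) = w²`. Their difference is the point with the coordinates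
`x = q₁² / (4 w²) - q₂`, `y = (q₁ x + 2 w² q₃) / (2 w)` of the Jacobian
`y² = x³ + q₂ x² + (q₁ q₃ - 4 q₀ q₄) x + q₁² q₄ + q₀ q₃² - 4 q₀ q₂ q₄`.

A rational point `z` is nondegenerate if there is a basis `b₁, …, b_n` of `ℚⁿ` consisting of
directions of degree at most `4`, such that for each `k` the direction `b_k` is of degree at most
`2`, or for some rational point `y ∈ z + ⟨b₁, …, b_{k-1}⟩` (for example `y = z`) the two points over
`y` of the curve over the line through `y` in the direction `b_k` have a difference of infinite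
order.

If `f` has degree at most `4` in each variable, then all the coordinate axes are directions of
degree at most `4`, and `w² = f(z)` is a double cover of `(ℙ¹)ⁿ` branched along a divisor of
multidegree at most `(4, …, 4)`: in general a K3 surface for `n = 2`, and a Calabi-Yau variety of
dimension `n`. Other examples are the double covers of the plane branched along a curve of degree
`6` with two double points (at infinity, in the directions of the axes).

(1) The closure in `ℝ^(n+1)` of the set of the nondegenerate rational points of `w² = f(z)`,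
`w ≠ 0`, is semialgebraic over `ℚ`.

(2) Each connected set of real points of `w² = f(z)` with `w ≠ 0` is contained in this closure, or
disjoint from it.

(3) The same as (1) for the closure of the set of the values of rational functions at such points
of products of such varieties and affine spaces.

(4) A criterion: the condition for the direction `b_k` holds for `y = z` if for some prime number
`p ≥ 3` the polynomial `q(t) = f(z + t b_k)`, with nonsingular resolvent, has `p`-integral
coefficients, and `q'(0)` is a `p`-adic unit, but `q(0)` is not. Hence the rational points `(w, z)`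
with `w ≡ 0` modulo `p` are nondegenerate, as soon as the partial derivatives of `f` at `z` are
units.
-/

set_option autoImplicit false

namespace Pool.Agent.Results.MP_42de19_nt.CalabiYauDoubleCovers

open MvPolynomial Pool.Agent.TH729.SQ Pool.Agent.Y718.X Pool.Agent.H581R2

/-- Semialgebraic sets defined over `ℚ`: the finite unions of sets
`{p = 0, q₁ > 0, …, q_k > 0}`, where `p` and the `qᵢ` are polynomials with rational
coefficients. -/
def Semialgebraic {n : ℕ} (S : Set (Fin n → ℝ)) : Prop :=
  ∃ (m : ℕ) (P : Fin m → MvPolynomial (Fin n) ℚ) (G : Fin m → Finset (MvPolynomial (Fin n) ℚ)),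
    S = {x : Fin n → ℝ | ∃ j : Fin m, (aeval x (P j) : ℝ) = 0 ∧
      ∀ g ∈ G j, (0 : ℝ) < aeval x g}

/-- The polynomial `f(z + t v)` in `t`. -/
noncomputable def restriction {n : ℕ} (f : MvPolynomial (Fin n) ℚ) (z v : Fin n → ℚ) :
    Polynomial ℚ :=
  aeval (fun k => Polynomial.C (z k) + Polynomial.C (v k) * Polynomial.X) f

/-- The polynomial `f` has degree at most `d` on all lines of direction `v`. -/
def DegreeAtMost {n : ℕ} (d : ℕ) (f : MvPolynomial (Fin n) ℚ) (v : Fin n → ℚ) : Prop :=
  ∀ z : Fin n → ℚ, (restriction f z v).natDegree ≤ d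

/-- The Jacobian of the curve `s² = q(t)`, where `q` is a polynomial of degree at most `4`. -/
def jacobian (q : Polynomial ℚ) : WeierstrassCurve ℚ where
  a₁ := 0
  a₂ := q.coeff 2
  a₃ := 0
  a₄ := q.coeff 1 * q.coeff 3 - 4 * q.coeff 0 * q.coeff 4
  a₆ := q.coeff 1 ^ 2 * q.coeff 4 + q.coeff 0 * q.coeff 3 ^ 2 -
    4 * q.coeff 0 * q.coeff 2 * q.coeff 4

/-- The Jacobian is nonsingular, `q(0) = w²` for a rational number `w ≠ 0`, and the difference of
the two points `(0, w)` and `(0, -w)` has infinite order. -/
def InfiniteOrder (q : Polynomial ℚ) : Prop :=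
  (jacobian q).Δ ≠ 0 ∧ ∃ (w x y : ℚ) (h : (jacobian q).toAffine.Nonsingular x y),
    w ≠ 0 ∧ w ^ 2 = q.coeff 0 ∧ x = q.coeff 1 ^ 2 / (4 * w ^ 2) - q.coeff 2 ∧
    y = (q.coeff 1 * x + 2 * w ^ 2 * q.coeff 3) / (2 * w) ∧
    ∀ m : ℕ, m ≠ 0 → m • WeierstrassCurve.Affine.Point.some x y h ≠ 0

/-- The point `z` is nondegenerate: there is a basis `b` of directions of degree at most `4`, such
that each `b k` is of degree at most `2` or the condition of infinite order is satisfied at some
point which differs from `z` by a linear combination of the preceding vectors. -/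
def Nondegenerate {n : ℕ} (f : MvPolynomial (Fin n) ℚ) (z : Fin n → ℚ) : Prop :=
  ∃ b : Fin n → Fin n → ℚ, LinearIndependent ℚ b ∧ ∀ k, DegreeAtMost 4 f (b k) ∧
    (DegreeAtMost 2 f (b k) ∨ ∃ c : Fin n → ℚ, (∀ l, k ≤ l → c l = 0) ∧
      InfiniteOrder (restriction f (z + ∑ j, c j • b j) (b k)))

/-- The rational points `(w, z)` of the variety `w² = f(z)` with `w ≠ 0` for which `z` is
nondegenerate. The coordinate `0` is `w`. -/
def points {n : ℕ} (f : MvPolynomial (Fin n) ℚ) : Set (Fin (n + 1) → ℚ) :=
  {u | u 0 ≠ 0 ∧ u 0 ^ 2 = eval (fun k => u k.succ) f ∧ Nondegenerate f fun k => u k.succ}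

lemma nondegenerate_iff {n : ℕ} (f : MvPolynomial (Fin n) ℚ) (z : Fin n → ℚ) :
    Nondegenerate f z ↔ NX f z := by
  have h : ∀ q, InfiniteOrder q ↔ Pool.Agent.Y718.X.Inf q := fun q => infO_iff q
  unfold Nondegenerate NX
  simp only [h]
  exact Iff.rfl

lemma points_eq {n : ℕ} (f : MvPolynomial (Fin n) ℚ) : points f = dcN f := by
  ext u
  simp only [points, dcN, nondegenerate_iff]

/-- **The closure of the set of nondegenerate rational points of `w² = f(z)`.** -/
theorem result :
    -- (1) the closure of the set of the rational points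
    (∀ (n : ℕ) (f : MvPolynomial (Fin n) ℚ),
      Semialgebraic (closure {x : Fin (n + 1) → ℝ | ∃ u ∈ points f, x = fun k => (u k : ℝ)})) ∧
    -- (2) connected sets of real points
    (∀ (n : ℕ) (f : MvPolynomial (Fin n) ℚ) (U : Set (Fin (n + 1) → ℝ)),
      (∀ x ∈ U, x 0 ≠ 0 ∧ x 0 ^ 2 = aeval (fun k => x k.succ) f) → IsPreconnected U →
      U ⊆ closure {x : Fin (n + 1) → ℝ | ∃ u ∈ points f, x = fun k => (u k : ℝ)} ∨
      Disjoint U (closure {x : Fin (n + 1) → ℝ | ∃ u ∈ points f, x = fun k => (u k : ℝ)})) ∧
    -- (3) the closure of the set of the values of rational functions on products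
    (∀ (J κ : Type) [Finite J] [Finite κ] (n : ℕ) (f : J → MvPolynomial (Fin n) ℚ) (m : ℕ)
        (p : Fin m → MvPolynomial ((J × Fin (n + 1)) ⊕ κ) ℚ)
        (q : MvPolynomial ((J × Fin (n + 1)) ⊕ κ) ℚ),
        Semialgebraic (closure {y : Fin m → ℝ | ∃ (x : J → Fin (n + 1) → ℚ) (u : κ → ℚ),
          (∀ j, x j ∈ points (f j)) ∧ eval (Sum.elim (fun a => x a.1 a.2) u) q ≠ 0 ∧
          ∀ k, y k = ((eval (Sum.elim (fun a => x a.1 a.2) u) (p k) /
            eval (Sum.elim (fun a => x a.1 a.2) u) q : ℚ) : ℝ)})) ∧
    -- (4) a criterion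
    (∀ (n : ℕ) (f : MvPolynomial (Fin n) ℚ) (z : Fin n → ℚ) (b : Fin n → Fin n → ℚ),
      (∃ w : ℚ, w ≠ 0 ∧ w ^ 2 = eval z f) → LinearIndependent ℚ b →
      (∀ k, DegreeAtMost 4 f (b k) ∧ (DegreeAtMost 2 f (b k) ∨
        (jacobian (restriction f z (b k))).Δ ≠ 0 ∧ ∃ p : ℕ, p.Prime ∧ 3 ≤ p ∧
          (∀ i, padicNorm p ((restriction f z (b k)).coeff i) ≤ 1) ∧
          padicNorm p ((restriction f z (b k)).coeff 1) = 1 ∧
          padicNorm p ((restriction f z (b k)).coeff 0) < 1)) →
      Nondegenerate f z) := by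
  refine ⟨fun n f => ?_, fun n f U hU hUc => ?_, ?_, ?_⟩
  · rw [points_eq]
    exact SA.frozen (dcN_SA f)
  · rw [points_eq]
    exact dcN_mazur f U hU hUc
  · intro J κ _ _ n f m p q
    simp only [points_eq]
    exact SA.frozen (values_main (fun j => dcN (f j)) (fun j => dcN_SA (f j)) p q)
  · rintro n f z b ⟨w, hw0, hw⟩ hb h
    rw [nondegenerate_iff]
    refine ⟨b, hb, fun k => ⟨(h k).1, ?_⟩⟩
    rcases (h k).2 with h2 | ⟨hΔ, p, hp, h3, c1, c2, c3⟩
    · exact Or.inl h2
    · refine Or.inr ⟨0, fun _ _ => rfl, ?_⟩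
      have : Fact p.Prime := ⟨hp⟩
      have e : ∀ x : ℚ, vp p x = ((padicNorm p x : ℚ) : ℝ) := fun x =>
        Rat.AbsoluteValue.padic_eq_padicNorm p x
      have hz : z + ∑ j, (0 : Fin n → ℚ) j • b j = z := by simp
      rw [hz]
      refine crit p h3 (w := w) (fun i => ?_) ?_ ?_ hw0 ?_ ((jac_Δ _).1 hΔ)
      · rw [e]; exact_mod_cast c1 i
      · rw [e]; exact_mod_cast c2
      · rw [e]; exact_mod_cast c3
      · rw [lk_zero, hw]

end Pool.Agent.Results.MP_42de19_nt.CalabiYauDoubleCovers
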