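import Pool.Agent.Y718.FinE

/-!
# The semialgebraic form of Mazur's conjecture for quadric bundles over the line

`f` is a polynomial over `ℚ` in the variables `x, y₁, …, y_r`, of degree at most four in `x` and of
total degree at most two in `y₁, …, y_r`. We consider the affine variety `w² = f(x, y₁, …, y_r)`, a
family of quadrics of dimension `r` over the `x`-line. For `r = 1` these are the conic bundle
surfaces `w² = A(x) y² + B(x) y + C(x)` with `deg A, deg B, deg C ≤ 4`, which can have up to eight
degenerate fibres (the double covers of `ℙ¹ × ℙ¹` branched along a curve of bidegree `(4, 2)`);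
for `r = 0` these are the curves `w² = f(x)` of genus at most one.

(1) The closure in `ℝ^(r+2)` of the set of all rational points of this variety is semialgebraic over
`ℚ`. There is no further hypothesis on `f`.

(2) The same for the closure of the set of the values of rational functions at the rational points
of products of such varieties and affine spaces.
-/

set_option autoImplicit false

namespace Pool.Agent.Results.MP_42de19_nt.QuadricBundles

open MvPolynomial Pool.Agent.TH729.SQ Pool.Agent.Y718 Pool.Agent.H581R2

/-- Semialgebraic sets defined over `ℚ`: the finite unions of sets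
`{p = 0, q₁ > 0, …, q_k > 0}`, where `p` and the `qᵢ` are polynomials with rational
coefficients. -/
def Semialgebraic {n : ℕ} (S : Set (Fin n → ℝ)) : Prop :=
  ∃ (m : ℕ) (P : Fin m → MvPolynomial (Fin n) ℚ) (G : Fin m → Finset (MvPolynomial (Fin n) ℚ)),
    S = {x : Fin n → ℝ | ∃ j : Fin m, (aeval x (P j) : ℝ) = 0 ∧
      ∀ g ∈ G j, (0 : ℝ) < aeval x g}

/-- The polynomial `f` in the variables `x = X 0` and `y_j = X (j + 1)` has degree at most four in
`x` and total degree at most two in the variables `y_j`. -/
def QuadricFamily {r : ℕ} (f : MvPolynomial (Fin (r + 1)) ℚ) : Prop :=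
  f.degreeOf 0 ≤ 4 ∧ ∀ d ∈ f.support, ∑ j : Fin r, d j.succ ≤ 2

/-- The rational points of the variety `w² = f(z)`; the coordinate `0` is `w`. -/
def doubleCover {n : ℕ} (f : MvPolynomial (Fin n) ℚ) : Set (Fin (n + 1) → ℚ) :=
  {u | u 0 ^ 2 = eval (fun k => u k.succ) f}

/-- **The closure of the set of rational points of `w² = f(x, y₁, …, y_r)`.** -/
theorem result :
    -- (1) the closure of the set of the rational points
    (∀ (r : ℕ) (f : MvPolynomial (Fin (r + 1)) ℚ), QuadricFamily f →
      Semialgebraic (closure {x : Fin (r + 2) → ℝ | ∃ u ∈ doubleCover f, x = fun k => (u k : ℝ)})) ∧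
    -- (2) the closure of the set of the values of rational functions on products
    (∀ (J κ : Type) [Finite J] [Finite κ] (r : ℕ) (f : J → MvPolynomial (Fin (r + 1)) ℚ),
      (∀ j, QuadricFamily (f j)) →
      ∀ (m : ℕ) (p : Fin m → MvPolynomial ((J × Fin (r + 2)) ⊕ κ) ℚ)
        (q : MvPolynomial ((J × Fin (r + 2)) ⊕ κ) ℚ),
        Semialgebraic (closure {y : Fin m → ℝ | ∃ (x : J → Fin (r + 2) → ℚ) (u : κ → ℚ),
          (∀ j, x j ∈ doubleCover (f j)) ∧ eval (Sum.elim (fun a => x a.1 a.2) u) q ≠ 0 ∧
          ∀ k, y k = ((eval (Sum.elim (fun a => x a.1 a.2) u) (p k) /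
            eval (Sum.elim (fun a => x a.1 a.2) u) q : ℚ) : ℝ)})) := by
  refine ⟨fun r f hf => SA.frozen (line_final f hf.1 hf.2), ?_⟩
  intro J κ _ _ r f hf m p q
  exact SA.frozen (values_main (fun j => doubleCover (f j))
    (fun j => line_final (f j) (hf j).1 (hf j).2) p q)

end Pool.Agent.Results.MP_42de19_nt.QuadricBundles
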