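import Pool.Agent.Y718.QuartB

/-!
# The semialgebraic form of Mazur's conjecture for quartic double covers of projective space

Let `F` be a form of degree four over `ℚ` in `n + 1 ≥ 3` variables whose zero set in the complex
projective space is smooth, and let `X` be the double cover `w² = F(Z₀, …, Z_n)` of the projective
space `ℙⁿ`, branched along the smooth quartic hypersurface `F = 0`. For `n = 2` these are the del
Pezzo surfaces of degree two, for `n = 3` the quartic double solids.

(1) In each affine chart `Z_p = 1` the closure of the set of the rational points with `w ≠ 0` is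
semialgebraic over `ℚ`.

(2) Mazur's conjecture on connected components holds for these points up to finitely many points:
in each chart there is a finite set `E` such that each connected set of real points with `w ≠ 0` is
contained in the closure of the set of the rational points with `w ≠ 0`, or meets this closure in a
subset of `E`.

(3) The closure of the set of the rational points with `w ≠ 0` of the affine cone
`w² = F(Z₀, …, Z_n)` is semialgebraic over `ℚ`.

(4) If the closure of the set of the rational points of the branch divisor `F = 0` is semialgebraic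
over `ℚ` (in a chart or on the cone), then so is the closure of the set of all rational points of
the double cover. (For `n = 2` the branch curve is a curve of genus three; it has only finitely
many rational points by the theorem of Faltings, which is not used here.)

(5) The closure of the set of the values of rational functions at rational points with `w_j ≠ 0` of
products of such cones and affine spaces is semialgebraic over `ℚ`.
-/

set_option autoImplicit false

namespace Pool.Agent.Results.MP_42de19_nt.QuarticDoubleCovers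

open MvPolynomial Pool.Agent.TH729.SQ Pool.Agent.Y718 Pool.Agent.H581R2

/-- Semialgebraic sets defined over `ℚ`: the finite unions of sets
`{p = 0, q₁ > 0, …, q_k > 0}`, where `p` and the `qᵢ` are polynomials with rational
coefficients. -/
def Semialgebraic {n : ℕ} (S : Set (Fin n → ℝ)) : Prop :=
  ∃ (m : ℕ) (P : Fin m → MvPolynomial (Fin n) ℚ) (G : Fin m → Finset (MvPolynomial (Fin n) ℚ)),
    S = {x : Fin n → ℝ | ∃ j : Fin m, (aeval x (P j) : ℝ) = 0 ∧
      ∀ g ∈ G j, (0 : ℝ) < aeval x g}

/-- The partial derivatives of the form have no common zero over the complex numbers besides the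
origin. -/
def SmoothForm {n : ℕ} (F : MvPolynomial (Fin (n + 1)) ℚ) : Prop :=
  ∀ y : Fin (n + 1) → ℂ, (∀ i, aeval y (pderiv i F) = 0) → y = 0

/-- The rational points `(w, z)` of the affine variety `w² = F(z₁, …, z_p, 1, z_{p+1}, …, z_n)`; the
coordinate `0` is `w`. -/
def chart {n : ℕ} (F : MvPolynomial (Fin (n + 1)) ℚ) (p : Fin (n + 1)) : Set (Fin (n + 1) → ℚ) :=
  {u | u 0 ^ 2 = eval (p.insertNth (α := fun _ => ℚ) 1 fun k => u k.succ) F}

/-- The rational points `(w, Z)` of the affine cone `w² = F(Z)`; the coordinate `0` is `w`. -/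
def cone {n : ℕ} (F : MvPolynomial (Fin (n + 1)) ℚ) : Set (Fin (n + 2) → ℚ) :=
  {u | u 0 ^ 2 = eval (fun k => u k.succ) F}

/-- The closure in `ℝᵐ` of a set of rational points. -/
def realClosure {m : ℕ} (D : Set (Fin m → ℚ)) : Set (Fin m → ℝ) :=
  closure {x : Fin m → ℝ | ∃ u ∈ D, x = fun k => (u k : ℝ)}

/-- **Quartic double covers.** -/
theorem result (n : ℕ) (hn : 2 ≤ n) :
    (∀ F : MvPolynomial (Fin (n + 1)) ℚ, F.IsHomogeneous 4 → SmoothForm F →
      -- (1) the charts
      (∀ p, Semialgebraic (realClosure {u | u ∈ chart F p ∧ u 0 ≠ 0})) ∧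
      -- (2) connected components
      (∀ p, ∃ E : Set (Fin (n + 1) → ℝ), E.Finite ∧ ∀ U : Set (Fin (n + 1) → ℝ),
        (∀ x ∈ U, x 0 ≠ 0 ∧ x 0 ^ 2 = aeval (p.insertNth (α := fun _ => ℝ) 1 fun k => x k.succ) F) →
        IsPreconnected U →
        U ⊆ realClosure {u | u ∈ chart F p ∧ u 0 ≠ 0} ∨
        U ∩ realClosure {u | u ∈ chart F p ∧ u 0 ≠ 0} ⊆ E) ∧
      -- (3) the cone
      Semialgebraic (realClosure {u | u ∈ cone F ∧ u 0 ≠ 0}) ∧
      -- (4) all rational points, if the branch divisor is under control
      (∀ p, Semialgebraic (realClosure {z : Fin n → ℚ |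
          eval (p.insertNth (α := fun _ => ℚ) 1 z) F = 0}) → Semialgebraic (realClosure (chart F p))) ∧
      (Semialgebraic (realClosure {z : Fin (n + 1) → ℚ | eval z F = 0}) →
        Semialgebraic (realClosure (cone F)))) ∧
    -- (5) the closure of the set of the values of rational functions on products
    (∀ (J κ : Type) [Finite J] [Finite κ] (F : J → MvPolynomial (Fin (n + 1)) ℚ),
      (∀ j, (F j).IsHomogeneous 4 ∧ SmoothForm (F j)) →
      ∀ (m : ℕ) (p : Fin m → MvPolynomial ((J × Fin (n + 2)) ⊕ κ) ℚ)
        (q : MvPolynomial ((J × Fin (n + 2)) ⊕ κ) ℚ),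
        Semialgebraic (closure {y : Fin m → ℝ | ∃ (x : J → Fin (n + 2) → ℚ) (u : κ → ℚ),
          (∀ j, x j ∈ cone (F j) ∧ x j 0 ≠ 0) ∧ eval (Sum.elim (fun a => x a.1 a.2) u) q ≠ 0 ∧
          ∀ k, y k = ((eval (Sum.elim (fun a => x a.1 a.2) u) (p k) /
            eval (Sum.elim (fun a => x a.1 a.2) u) q : ℚ) : ℝ)})) := by
  have hX : ∀ (F : MvPolynomial (Fin (n + 1)) ℚ) (p : Fin (n + 1)),
      X0 (deh F p) = {u | u ∈ chart F p ∧ u 0 ≠ 0} := by
    intro F p
    ext u
    simp only [X0, chart, Set.mem_ofPred_eq, deh_eval, ic_eq]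
    exact and_comm
  have hC : ∀ F : MvPolynomial (Fin (n + 1)) ℚ, Cone F = {u | u ∈ cone F ∧ u 0 ≠ 0} := by
    intro F
    ext u
    simp only [Cone, cone, Set.mem_ofPred_eq]
    exact and_comm
  refine ⟨fun F hF hsm => ⟨fun p => ?_, fun p => ?_, ?_, fun p hb => ?_, fun hb => ?_⟩, ?_⟩
  · rw [← hX]
    exact SA.frozen (chart_SA hF (smooth_of hsm) hn p)
  · obtain ⟨E, hE, h⟩ := chart_mazur hF (smooth_of hsm) hn p
    refine ⟨E, hE, fun U hU hUc => ?_⟩
    rw [← hX]
    refine h U (fun x hx => ⟨(hU x hx).1, ?_⟩) hUc
    rw [deh_aeval]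
    exact (hU x hx).2
  · rw [← hC]
    exact SA.frozen (Cone_SA hF (smooth_of hsm) hn)
  · have h1 := full_SA (deh F p) (chart_SA hF (smooth_of hsm) hn p) (by
      have h2 := SA_of_frozen hb
      simp only [deh_eval, ic_eq]
      exact h2)
    simp only [deh_eval, ic_eq] at h1
    exact SA.frozen h1
  · exact SA.frozen (full_SA F (Cone_SA hF (smooth_of hsm) hn) (SA_of_frozen hb))
  · intro J κ _ _ F hF m p q
    have h1 := values_main (fun j => {u | u ∈ cone (F j) ∧ u 0 ≠ 0}) (fun j => by
      rw [← hC]
      exact Cone_SA (hF j).1 (smooth_of (hF j).2) hn) p q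
    exact SA.frozen h1

end Pool.Agent.Results.MP_42de19_nt.QuarticDoubleCovers
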