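import Pool.Agent.Y718.QuartB

/-!
# The semialgebraic form of Mazur's conjecture at the nondegenerate points of `w² = f(z)`

`f` is a polynomial over `ℚ` in `n` variables, of degree at most four in each variable (its total
degree can be `4 n`). We consider the affine variety `w² = f(z₁, …, z_n)`.

A point `z` is nondegenerate for the variable `z_i` in one of the following three cases.

(a) `f` has degree at most two in `z_i`.

(b) There is a direction `v` with `v_i = 0` such that `f` is quadratic along all lines of direction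
`v`, the polynomial `f(z + s v)` in `s` is of degree two and has two different zeros, and
`∂f/∂z_i (z + s v)` is not a constant multiple of `f(z + s v)`.

(c) There is a linear space `V` of directions, which contains the direction of the `z_i`-axis, such
that `f` has degree at most four along all lines with directions in `V`, and `V` contains a plane
on which no nontrivial linear combination `ℓ B - γ T` with a linear form `ℓ` and a constant `γ`
vanishes identically; here `B(v) = q₁³ - 4 q₀ q₁ q₂ + 8 q₀² q₃` and
`T(v) = (q₁² - 4 q₀ q₂)² - 64 q₀³ q₄`, if `f(z + s v) = q₀ + q₁ s + … + q₄ s⁴`.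

For example, if `f = A(x) y² + B(x) y + C(x)` with polynomials `A, B, C` of degree at most four in
each of `x₁, …, x_m` (a conic bundle over `(ℙ¹)^m`), then (b) holds at all points at which `A` and
the discriminant `B² - 4 A C` do not vanish and at which, for each `i`, the triples `(A, B, C)` and
`(∂_i A, ∂_i B, ∂_i C)` are linearly independent. If the total degree of `f` is at most four, then
(c) is a condition for the whole space `V = ℚⁿ`, which is the same for all `i`; it includes singular
branch divisors of any kind.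

(1) The closure in `ℝ^(n+1)` of the set of the rational points of `w² = f(z)` which are
nondegenerate for all variables (and smooth along some line, if `w = 0`) is semialgebraic over `ℚ`.

(2) The rational points are locally dense: Let `x ∈ ℝⁿ` with `f(x) > 0` be in the closure of the
set of the nondegenerate `z ∈ ℚⁿ` for which `f(z)` is a nonzero square in `ℚ`. Then this closure
is a neighbourhood of `x`.

(3) The same as (1) for the closure of the set of the values of rational functions at such points
of products of such varieties and affine spaces.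
-/

set_option autoImplicit false

namespace Pool.Agent.Results.MP_42de19_nt.SeveralParameters

open MvPolynomial Pool.Agent.TH729.SQ Pool.Agent.Y718 Pool.Agent.H581R2 Topology

/-- Semialgebraic sets defined over `ℚ`: the finite unions of sets
`{p = 0, q₁ > 0, …, q_k > 0}`, where `p` and the `qᵢ` are polynomials with rational
coefficients. -/
def Semialgebraic {n : ℕ} (S : Set (Fin n → ℝ)) : Prop :=
  ∃ (m : ℕ) (P : Fin m → MvPolynomial (Fin n) ℚ) (G : Fin m → Finset (MvPolynomial (Fin n) ℚ)),
    S = {x : Fin n → ℝ | ∃ j : Fin m, (aeval x (P j) : ℝ) = 0 ∧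
      ∀ g ∈ G j, (0 : ℝ) < aeval x g}

/-- The polynomial `f` has degree at most two along each line of direction `v`. -/
def QuadraticAlong {n : ℕ} (f : MvPolynomial (Fin n) ℚ) (v : Fin n → ℚ) : Prop :=
  ∀ z : Fin n → ℚ, ∃ A B : ℚ, ∀ s : ℚ, eval (z + s • v) f = A * s ^ 2 + B * s + eval z f

/-- The polynomial `f(z + s v)` in `s`. -/
noncomputable def restriction {n : ℕ} (f : MvPolynomial (Fin n) ℚ) (z v : Fin n → ℚ) :
    Polynomial ℚ :=
  aeval (fun k => Polynomial.C (z k) + Polynomial.C (v k) * Polynomial.X) f

/-- The cubic covariant of the pencil of lines through `z`. -/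
noncomputable def B {n : ℕ} (f : MvPolynomial (Fin n) ℚ) (z v : Fin n → ℚ) : ℚ :=
  (restriction f z v).coeff 1 ^ 3 -
    4 * (restriction f z v).coeff 0 * (restriction f z v).coeff 1 * (restriction f z v).coeff 2 +
    8 * (restriction f z v).coeff 0 ^ 2 * (restriction f z v).coeff 3

/-- The quartic covariant of the pencil of lines through `z`. -/
noncomputable def T {n : ℕ} (f : MvPolynomial (Fin n) ℚ) (z v : Fin n → ℚ) : ℚ :=
  ((restriction f z v).coeff 1 ^ 2 -
    4 * (restriction f z v).coeff 0 * (restriction f z v).coeff 2) ^ 2 -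
    64 * (restriction f z v).coeff 0 ^ 3 * (restriction f z v).coeff 4

/-- The point `z` is nondegenerate for the `i`-th variable: `f` has degree at most two in this
variable, or there is a nondegenerate quadratic direction, or a nondegenerate plane in a space of
directions along which the degree of `f` is at most four and which contains the `i`-th direction. -/
def Nondegenerate {n : ℕ} (f : MvPolynomial (Fin n) ℚ) (i : Fin n) (z : Fin n → ℚ) : Prop :=
  (f.degreeOf i ≤ 2 ∨ ∃ v : Fin n → ℚ, v i = 0 ∧ QuadraticAlong f v ∧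
    (∃ A B : ℚ, A ≠ 0 ∧ B ^ 2 - 4 * A * eval z f ≠ 0 ∧
      ∀ s : ℚ, eval (z + s • v) f = A * s ^ 2 + B * s + eval z f) ∧
    ¬ ∃ c : ℚ, ∀ s : ℚ, eval (z + s • v) (pderiv i f) = c * eval (z + s • v) f) ∨
  ∃ V : Submodule ℚ (Fin n → ℚ), Pi.single i 1 ∈ V ∧
    (∀ z, ∀ v ∈ V, (restriction f z v).natDegree ≤ 4) ∧
    ∃ v ∈ V, ∃ u ∈ V, ∀ α β γ : ℚ, (∀ s t : ℚ, (α * s + β * t) * B f z (s • v + t • u) =
      γ * T f z (s • v + t • u)) → α = 0 ∧ β = 0 ∧ γ = 0

/-- The rational points `(w, z)` of the variety `w² = f(z)` for which `z` is nondegenerate for all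
variables and, if `w = 0`, for which `f(z + s v) = A s² + B s` with `B ≠ 0` for some direction
`v`. The coordinate `0` is `w`. -/
def goodPoints {n : ℕ} (f : MvPolynomial (Fin n) ℚ) : Set (Fin (n + 1) → ℚ) :=
  {u | u 0 ^ 2 = eval (fun k => u k.succ) f ∧ (∀ i, Nondegenerate f i fun k => u k.succ) ∧
    (u 0 ≠ 0 ∨ ∃ (v : Fin n → ℚ) (A B : ℚ), B ≠ 0 ∧
      ∀ s : ℚ, eval ((fun k => u k.succ) + s • v) f = A * s ^ 2 + B * s)}

/-- **The closure of the set of nondegenerate rational points of `w² = f(z)`, `f` of degree at most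
four in each variable.** -/
theorem result :
    -- (1) the closure of the set of the rational points
    (∀ (n : ℕ) (f : MvPolynomial (Fin n) ℚ), (∀ i, f.degreeOf i ≤ 4) →
      Semialgebraic (closure {x : Fin (n + 1) → ℝ | ∃ u ∈ goodPoints f, x = fun k => (u k : ℝ)})) ∧
    -- (2) local density
    (∀ (n : ℕ) (f : MvPolynomial (Fin n) ℚ), (∀ i, f.degreeOf i ≤ 4) →
      ∀ x : Fin n → ℝ, (0 : ℝ) < aeval x f →
      x ∈ closure {y : Fin n → ℝ | ∃ z : Fin n → ℚ, ((∀ i, Nondegenerate f i z) ∧
        ∃ w : ℚ, w ≠ 0 ∧ w ^ 2 = eval z f) ∧ y = fun k => (z k : ℝ)} →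
      closure {y : Fin n → ℝ | ∃ z : Fin n → ℚ, ((∀ i, Nondegenerate f i z) ∧
        ∃ w : ℚ, w ≠ 0 ∧ w ^ 2 = eval z f) ∧ y = fun k => (z k : ℝ)} ∈ 𝓝 x) ∧
    -- (3) the closure of the set of the values of rational functions on products
    (∀ (J κ : Type) [Finite J] [Finite κ] (n : ℕ) (f : J → MvPolynomial (Fin n) ℚ),
      (∀ j i, (f j).degreeOf i ≤ 4) →
      ∀ (m : ℕ) (p : Fin m → MvPolynomial ((J × Fin (n + 1)) ⊕ κ) ℚ)
        (q : MvPolynomial ((J × Fin (n + 1)) ⊕ κ) ℚ),
        Semialgebraic (closure {y : Fin m → ℝ | ∃ (x : J → Fin (n + 1) → ℚ) (u : κ → ℚ),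
          (∀ j, x j ∈ goodPoints (f j)) ∧ eval (Sum.elim (fun a => x a.1 a.2) u) q ≠ 0 ∧
          ∀ k, y k = ((eval (Sum.elim (fun a => x a.1 a.2) u) (p k) /
            eval (Sum.elim (fun a => x a.1 a.2) u) q : ℚ) : ℝ)})) := by
  refine ⟨fun n f hf => SA.frozen (gen2_final f hf), ?_, ?_⟩
  · intro n f hf x hx0 hx
    exact SG2_open hf hx hx0
  · intro J κ _ _ n f hf m p q
    exact SA.frozen (values_main (fun j => goodPoints (f j))
      (fun j => gen2_final (f j) (hf j)) p q)

end Pool.Agent.Results.MP_42de19_nt.SeveralParameters
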